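import Pool.Agent.Y16.AF.StmA

/-! The modes of momentum zero. -/

open MeasureTheory Matrix
open scoped Matrix.Norms.Frobenius Topology

namespace Pool.Agent.Y232.AF

open Pool.Agent.Y16.AF

noncomputable section

/-- index set: times and directions -/
abbrev In (L : ℕ) := Fin (L - 1) × Fin 3

/-- half of the field strength -/
def ph (L : ℕ) (j : Fin 3) : ℝ := if j = 0 then 1 / (2 * (L : ℝ) ^ 2) else 0

/-- transport -/
def ps (L : ℕ) (a : In L) : ℝ := if a.2 = 0 then 0 else ((a.1 : ℕ) + 1 : ℝ) / (L : ℝ) ^ 2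

/-- neighbours -/
def up {L : ℕ} (a b : In L) : Prop := a.2 = b.2 ∧ (b.1 : ℕ) = a.1 + 1

instance {L : ℕ} (a b : In L) : Decidable (up a b) := by unfold up; infer_instance

/-- the explicit matrix -/
def KK (L : ℕ) (ε : ℝ) (a b : In L) : ℂ :=
  (if a = b then ((2 * Real.cos (ph L a.2 * ε) + (2 - 2 * Real.cos (ps L a * ε)) : ℝ) : ℂ) else 0)
  + (if up a b then -Complex.exp (-(Complex.I * ((ph L a.2 * ε : ℝ) : ℂ))) else 0)
  + (if up b a then -Complex.exp (Complex.I * ((ph L a.2 * ε : ℝ) : ℂ)) else 0)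

lemma vS_iff {L : ℕ} (t : ℕ) (j : Fin 3) (a : In L) :
    vS L t j = some (Sum.inr a) ↔ t = (a.1 : ℕ) + 1 ∧ j = a.2 := by
  unfold vS
  obtain ⟨s, i⟩ := a
  have hs := s.2
  split_ifs with h
  · simp only [Option.some.injEq, Sum.inr.injEq, Prod.mk.injEq, Fin.ext_iff]
    omega
  · simp only [false_iff, not_and]
    intro h1
    omega

lemma vT_ne {L : ℕ} (t : ℕ) (a : In L) : ¬ vT L t = some (Sum.inr a) := by
  unfold vT
  split_ifs <;> simp

section entries

variable {L : ℕ}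

lemma e0 (t : Fin L) (j : Fin 3) (a : In L) : inl1 t (.inl j) 0 (.inr a) = 0 := by
  simp [inl1, lv, vT_ne]

lemma e1 (t : Fin L) (j : Fin 3) (a : In L) : inl1 t (.inl j) 1 (.inr a) =
    if (t : ℕ) = (a.1 : ℕ) + 1 ∧ j = a.2 then -1 else 0 := by
  simp [inl1, lv, vS_iff, sg, sb]

lemma e2 (t : Fin L) (j : Fin 3) (a : In L) : inl1 t (.inl j) 2 (.inr a) = 0 := by
  simp [inl1, lv, vT_ne]

lemma e3 (t : Fin L) (j : Fin 3) (a : In L) : inl1 t (.inl j) 3 (.inr a) =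
    if (t : ℕ) = (a.1 : ℕ) ∧ j = a.2 then 1 else 0 := by
  simp [inl1, lv, vS_iff, sg, sb]

lemma f0 (t : Fin L) (m : Fin 3) (a : In L) : inl1 t (.inr m) 0 (.inr a) =
    if (t : ℕ) = (a.1 : ℕ) + 1 ∧ pi2 m = a.2 then 1 else 0 := by
  simp [inl1, lv, vS_iff, sg, sb]

lemma f1 (t : Fin L) (m : Fin 3) (a : In L) : inl1 t (.inr m) 1 (.inr a) =
    if (t : ℕ) = (a.1 : ℕ) + 1 ∧ pi1 m = a.2 then -1 else 0 := by
  simp [inl1, lv, vS_iff, sg, sb]

lemma f2 (t : Fin L) (m : Fin 3) (a : In L) : inl1 t (.inr m) 2 (.inr a) =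
    if (t : ℕ) = (a.1 : ℕ) + 1 ∧ pi2 m = a.2 then -1 else 0 := by
  simp [inl1, lv, vS_iff, sg, sb]

lemma f3 (t : Fin L) (m : Fin 3) (a : In L) : inl1 t (.inr m) 3 (.inr a) =
    if (t : ℕ) = (a.1 : ℕ) + 1 ∧ pi1 m = a.2 then 1 else 0 := by
  simp [inl1, lv, vS_iff, sg, sb]

lemma lz_one (κ : Fin 3 ⊕ Fin 3) (i : Fin 4) : lz 1 κ i = 1 := by
  rcases κ with j | m <;> fin_cases i <;> simp [lz]

/-- the planes of time -/
lemma T_inl (t : Fin L) (j : Fin 3) (ε : ℝ) (a b : In L) :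
    ∑ i, ∑ i', inl1 t (.inl j) i (.inr a) * inl1 t (.inl j) i' (.inr b) *
      om (al L (.inl j) * ε) (ta t (.inl j) * ε) i i' *
      ((starRingEnd ℂ) (lz 1 (.inl j) i) * lz 1 (.inl j) i') =
    (if (t : ℕ) = (a.1 : ℕ) + 1 ∧ j = a.2 then
      (if (t : ℕ) = (b.1 : ℕ) + 1 ∧ j = b.2 then (Real.cos (ph L j * ε) : ℂ) else 0) +
      (if (t : ℕ) = (b.1 : ℕ) ∧ j = b.2 then
        -Complex.exp (-(Complex.I * ((ph L j * ε : ℝ) : ℂ))) else 0) else 0) +
    (if (t : ℕ) = (a.1 : ℕ) ∧ j = a.2 then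
      (if (t : ℕ) = (b.1 : ℕ) ∧ j = b.2 then (Real.cos (ph L j * ε) : ℂ) else 0) +
      (if (t : ℕ) = (b.1 : ℕ) + 1 ∧ j = b.2 then
        -Complex.exp (Complex.I * ((ph L j * ε : ℝ) : ℂ)) else 0) else 0) := by
  have hph : al L (.inl j) * ε / 2 = ph L j * ε := by
    unfold al ph
    by_cases hj : j = 0
    · subst hj
      simp only [if_true]
      field_simp
    · have : (Sum.inl j : Fin 3 ⊕ Fin 3) ≠ Sum.inl 0 := by simpa using hj
      simp [hj]
  have hph' : ((al L (.inl j) * ε : ℝ) : ℂ) / 2 = ((ph L j * ε : ℝ) : ℂ) := by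
    rw [← hph]; push_cast; ring
  simp only [lz_one, map_one, mul_one, Fin.sum_univ_four, e0, e1, e2, e3, zero_mul, mul_zero,
    add_zero, zero_add]
  simp only [om, ww, cc, hph, hph']
  simp only [show ¬ ((1 : Fin 4) = 0) from by decide, show ¬ ((3 : Fin 4) = 0) from by decide,
    show ¬ ((1 : Fin 4) = 3) from by decide, show ¬ ((3 : Fin 4) = 1) from by decide,
    show ((1 : Fin 4) < 3) from by decide, show ¬ ((3 : Fin 4) < 1) from by decide,
    if_true, if_false, map_one, mul_one]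
  split_ifs <;> ring

/-- the planes of space -/
lemma T_inr (t : Fin L) (m : Fin 3) (ε : ℝ) (a b : In L) :
    ∑ i, ∑ i', inl1 t (.inr m) i (.inr a) * inl1 t (.inr m) i' (.inr b) *
      om (al L (.inr m) * ε) (ta t (.inr m) * ε) i i' *
      ((starRingEnd ℂ) (lz 1 (.inr m) i) * lz 1 (.inr m) i') =
    (if (t : ℕ) = (a.1 : ℕ) + 1 ∧ pi2 m = a.2 then
      (if (t : ℕ) = (b.1 : ℕ) + 1 ∧ pi2 m = b.2 then
        ((2 - 2 * Real.cos (ta t (.inr m) * ε) : ℝ) : ℂ) else 0) else 0) := by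
  have hal : al L (.inr m) = 0 := by simp [al]
  have hw : ∀ i i' : Fin 4, om (al L (.inr m) * ε) (ta t (.inr m) * ε) i i' =
      (starRingEnd ℂ) (cc (ta t (.inr m) * ε) i) * cc (ta t (.inr m) * ε) i' := by
    intro i i'
    unfold om ww
    rw [hal]
    split_ifs <;> simp
  have hc : (starRingEnd ℂ) (Complex.exp (Complex.I * ((ta t (.inr m) * ε : ℝ) : ℂ))) *
      Complex.exp (Complex.I * ((ta t (.inr m) * ε : ℝ) : ℂ)) = 1 := by
    rw [← Complex.exp_conj, ← Complex.exp_add]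
    simp
  have hd : (starRingEnd ℂ) (Complex.exp (Complex.I * ((ta t (.inr m) * ε : ℝ) : ℂ))) +
      Complex.exp (Complex.I * ((ta t (.inr m) * ε : ℝ) : ℂ)) =
      ((2 * Real.cos (ta t (.inr m) * ε) : ℝ) : ℂ) := by
    rw [← Complex.exp_conj]
    push_cast
    rw [Complex.cos]
    simp only [map_mul, Complex.conj_I, Complex.conj_ofReal]
    ring_nf
  simp only [lz_one, map_one, mul_one, Fin.sum_univ_four, f0, f1, f2, f3, hw]
  simp only [cc, show ¬ ((1 : Fin 4) = 0) from by decide, show ¬ ((3 : Fin 4) = 0) from by decide,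
    show ¬ ((2 : Fin 4) = 0) from by decide, if_true, if_false, map_one, mul_one, one_mul]
  obtain ⟨X, hX⟩ : ∃ X, X = Complex.exp (Complex.I * ((ta t (.inr m) * ε : ℝ) : ℂ)) := ⟨_, rfl⟩
  obtain ⟨Y, hY⟩ : ∃ Y, Y = (starRingEnd ℂ)
    (Complex.exp (Complex.I * ((ta t (.inr m) * ε : ℝ) : ℂ))) := ⟨_, rfl⟩
  rw [← hX] at hc hd hY
  rw [← hX, ← hY]
  rw [← hY] at hc hd
  have neg : ∀ (P : Prop) [Decidable P], (if P then (-1 : ℂ) else 0) = -(if P then 1 else 0) := by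
    intro P _
    split_ifs <;> simp
  simp only [neg]
  have hr : (if (t : ℕ) = (a.1 : ℕ) + 1 ∧ pi2 m = a.2 then
      (if (t : ℕ) = (b.1 : ℕ) + 1 ∧ pi2 m = b.2 then
        ((2 - 2 * Real.cos (ta t (.inr m) * ε) : ℝ) : ℂ) else 0) else 0) =
      (if (t : ℕ) = (a.1 : ℕ) + 1 ∧ pi2 m = a.2 then (1 : ℂ) else 0) *
      (if (t : ℕ) = (b.1 : ℕ) + 1 ∧ pi2 m = b.2 then (1 : ℂ) else 0) *
        ((2 - 2 * Real.cos (ta t (.inr m) * ε) : ℝ) : ℂ) := by
    split_ifs <;> simp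
  rw [hr]
  generalize (if (t : ℕ) = (a.1 : ℕ) + 1 ∧ pi2 m = a.2 then (1 : ℂ) else 0) = A
  generalize (if (t : ℕ) = (b.1 : ℕ) + 1 ∧ pi2 m = b.2 then (1 : ℂ) else 0) = B
  generalize (if (t : ℕ) = (a.1 : ℕ) + 1 ∧ pi1 m = a.2 then (1 : ℂ) else 0) = A'
  generalize (if (t : ℕ) = (b.1 : ℕ) + 1 ∧ pi1 m = b.2 then (1 : ℂ) else 0) = B'
  push_cast at hd ⊢
  linear_combination (A * B) * hc - A * B * hd

lemma sum_one (u : ℕ) (hu : u < L) (j0 : Fin 3) (F : Fin L → Fin 3 → ℂ) :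
    ∑ t : Fin L, ∑ j : Fin 3, (if (t : ℕ) = u ∧ j = j0 then F t j else 0) = F ⟨u, hu⟩ j0 := by
  rw [Finset.sum_eq_single (⟨u, hu⟩ : Fin L), Finset.sum_eq_single j0]
  · simp
  · intro j _ hj
    simp [hj]
  · simp
  · intro t _ ht
    apply Finset.sum_eq_zero
    intro j _
    rw [if_neg]
    rintro ⟨h, -⟩
    exact ht (Fin.ext h)
  · simp

lemma sum_inr (ε : ℝ) (a b : In L) :
    ∑ t : Fin L, ∑ m : Fin 3, (if (t : ℕ) = (a.1 : ℕ) + 1 ∧ pi2 m = a.2 then
      (if (t : ℕ) = (b.1 : ℕ) + 1 ∧ pi2 m = b.2 then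
        ((2 - 2 * Real.cos (ta t (.inr m) * ε) : ℝ) : ℂ) else 0) else 0) =
    if a = b then ((2 - 2 * Real.cos (ps L a * ε) : ℝ) : ℂ) else 0 := by
  have hs := a.1.2
  rw [Finset.sum_eq_single (⟨(a.1 : ℕ) + 1, by omega⟩ : Fin L)]
  · obtain ⟨s, i⟩ := a
    obtain ⟨s', i'⟩ := b
    simp only [Fin.sum_univ_three, ta, ps, pi2, Prod.mk.injEq, Fin.ext_iff]
    by_cases h : (s : ℕ) = s'
    · fin_cases i <;> fin_cases i' <;> simp [h]
    · fin_cases i <;> fin_cases i' <;> simp [h]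
  · intro t _ ht
    apply Finset.sum_eq_zero
    intro j _
    rw [if_neg]
    rintro ⟨h, -⟩
    exact ht (Fin.ext h)
  · simp

lemma hS_eq (ε : ℝ) (a b : In L) : hS (L := L) ε 1 (.inr a) (.inr b) = KK L ε a b := by
  have ha := a.1.2
  unfold hS
  simp only [Fintype.sum_sum_type]
  simp only [T_inl, T_inr, Finset.sum_add_distrib]
  rw [sum_inr, sum_one ((a.1 : ℕ) + 1) (by omega) a.2, sum_one (a.1 : ℕ) (by omega) a.2]
  unfold KK up
  obtain ⟨s, i⟩ := a
  obtain ⟨s', i'⟩ := b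
  simp only [Prod.mk.injEq, Fin.ext_iff]
  split_ifs <;> first | (exfalso; omega) | (push_cast; ring)

/-! ### Derivatives -/

/-- first derivative of the entries -/
def K1 (L : ℕ) (ε : ℝ) (a b : In L) : ℂ :=
  (if a = b then ((2 * (-Real.sin (ph L a.2 * ε) * ph L a.2) -
    2 * (-Real.sin (ps L a * ε) * ps L a) : ℝ) : ℂ) else 0)
  + (if up a b then -(Complex.exp (-Complex.I * ((ph L a.2 * ε : ℝ) : ℂ)) *
    (-Complex.I * (ph L a.2 : ℂ))) else 0)
  + (if up b a then -(Complex.exp (Complex.I * ((ph L a.2 * ε : ℝ) : ℂ)) *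
    (Complex.I * (ph L a.2 : ℂ))) else 0)

/-- second derivative of the entries at zero -/
def K2 (L : ℕ) (a b : In L) : ℂ :=
  (if a = b then ((2 * (-ph L a.2 * ph L a.2) - 2 * (-ps L a * ps L a) : ℝ) : ℂ) else 0)
  + (if up a b then ((ph L a.2 ^ 2 : ℝ) : ℂ) else 0)
  + (if up b a then ((ph L a.2 ^ 2 : ℝ) : ℂ) else 0)

lemma hd_lin (p x : ℝ) : HasDerivAt (fun y : ℝ => p * y) p x := by
  simpa using (hasDerivAt_id x).const_mul p

lemma hd_cos (p x : ℝ) : HasDerivAt (fun y : ℝ => Real.cos (p * y)) (-Real.sin (p * x) * p) x :=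
  (hd_lin p x).cos

lemma hd_sin (p x : ℝ) : HasDerivAt (fun y : ℝ => Real.sin (p * y)) (Real.cos (p * x) * p) x :=
  (hd_lin p x).sin

lemma hd_exp (c : ℂ) (p x : ℝ) : HasDerivAt (fun y : ℝ => Complex.exp (c * ((p * y : ℝ) : ℂ)))
    (Complex.exp (c * ((p * x : ℝ) : ℂ)) * (c * (p : ℂ))) x :=
  ((hd_lin p x).ofReal_comp.const_mul c).cexp

lemma hd_ite {P : Prop} [Decidable P] {f : ℝ → ℂ} {f' : ℂ} {x : ℝ} (h : HasDerivAt f f' x) :
    HasDerivAt (fun y => if P then f y else 0) (if P then f' else 0) x := by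
  split_ifs
  · exact h
  · exact hasDerivAt_const _ _

lemma KK_deriv (x : ℝ) (a b : In L) : HasDerivAt (fun y => KK L y a b) (K1 L x a b) x := by
  unfold KK K1
  refine ((hd_ite ?_).add (hd_ite ?_)).add (hd_ite ?_)
  · refine HasDerivAt.ofReal_comp ?_
    have h1 := ((hd_cos (ph L a.2) x).const_mul 2)
    have h2 := ((hd_cos (ps L a) x).const_mul 2).const_sub 2
    exact (h1.add h2).congr_deriv (by ring)
  · have h := (hd_exp (-Complex.I) (ph L a.2) x).neg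
    have e : (fun y : ℝ => -Complex.exp (-(Complex.I * ((ph L a.2 * y : ℝ) : ℂ)))) =
        fun y : ℝ => -Complex.exp (-Complex.I * ((ph L a.2 * y : ℝ) : ℂ)) := by
      funext y
      rw [neg_mul]
    rw [e]
    exact h
  · exact (hd_exp Complex.I (ph L a.2) x).neg

lemma K1_deriv (a b : In L) : HasDerivAt (fun y => K1 L y a b) (K2 L a b) 0 := by
  unfold K1 K2
  refine ((hd_ite ?_).add (hd_ite ?_)).add (hd_ite ?_)
  · refine HasDerivAt.ofReal_comp ?_
    have h1 := (((hd_sin (ph L a.2) 0).neg.mul_const (ph L a.2)).const_mul 2)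
    have h2 := (((hd_sin (ps L a) 0).neg.mul_const (ps L a)).const_mul 2)
    refine (h1.sub h2).congr_deriv ?_
    simp
  · have h := ((hd_exp (-Complex.I) (ph L a.2) 0).mul_const (-Complex.I * (ph L a.2 : ℂ))).neg
    refine h.congr_deriv ?_
    have hI := Complex.I_mul_I
    simp only [mul_zero, Complex.ofReal_zero, Complex.exp_zero, one_mul]
    push_cast
    linear_combination (-(ph L a.2 : ℂ) ^ 2) * hI
  · have h := ((hd_exp Complex.I (ph L a.2) 0).mul_const (Complex.I * (ph L a.2 : ℂ))).neg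
    refine h.congr_deriv ?_
    have hI := Complex.I_mul_I
    simp only [mul_zero, Complex.ofReal_zero, Complex.exp_zero, one_mul]
    push_cast
    linear_combination (-(ph L a.2 : ℂ) ^ 2) * hI

lemma cd_ite {P : Prop} [Decidable P] {f : ℝ → ℂ} (h : ContDiff ℝ 2 f) :
    ContDiff ℝ 2 (fun y => if P then f y else 0) := by
  split_ifs
  · exact h
  · exact contDiff_const

lemma KK_cd (a b : In L) : ContDiff ℝ 2 (fun y => KK L y a b) := by
  unfold KK
  have hl : ∀ p : ℝ, ContDiff ℝ 2 (fun y : ℝ => p * y) := fun p => contDiff_const.mul contDiff_id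
  have hr : ∀ f : ℝ → ℝ, ContDiff ℝ 2 f → ContDiff ℝ 2 (fun y => ((f y : ℝ) : ℂ)) := fun f hf =>
    Complex.ofRealCLM.contDiff.comp hf
  refine ((cd_ite ?_).add (cd_ite ?_)).add (cd_ite ?_)
  · refine hr _ ?_
    exact (contDiff_const.mul (Real.contDiff_cos.comp (hl _))).add
      (contDiff_const.sub (contDiff_const.mul (Real.contDiff_cos.comp (hl _))))
  · exact (contDiff_const.mul (hr _ (hl _))).neg.cexp.neg
  · exact (contDiff_const.mul (hr _ (hl _))).cexp.neg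

lemma det_cd {n : Type} [Fintype n] [DecidableEq n] (h : ℝ → Matrix n n ℂ)
    (hh : ∀ a b, ContDiff ℝ 2 (fun y => h y a b)) : ContDiff ℝ 2 (fun y => det (h y)) := by
  simp only [Matrix.det_apply]
  refine ContDiff.sum fun σ _ => ?_
  exact ContDiff.const_smul _ (contDiff_prod fun i _ => hh _ _)

/-! ### The inverse at zero -/

lemma sum_up (g : ℕ → Fin 3 → ℂ) (hg : ∀ j, g L j = 0) (a : In L) :
    ∑ c : In L, (if up a c then g ((c.1 : ℕ) + 1) c.2 else 0) = g ((a.1 : ℕ) + 2) a.2 := by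
  have ha := a.1.2
  by_cases h : (a.1 : ℕ) + 2 < L
  · rw [Finset.sum_eq_single ((⟨(a.1 : ℕ) + 1, by omega⟩ : Fin (L - 1)), a.2)]
    · simp [up]
    · intro c _ hc
      rw [if_neg]
      rintro ⟨h1, h2⟩
      exact hc (Prod.ext (Fin.ext h2) h1.symm)
    · simp
  · have h' : (a.1 : ℕ) + 2 = L := by omega
    rw [h', hg]
    apply Finset.sum_eq_zero
    intro c _
    rw [if_neg]
    rintro ⟨h1, h2⟩
    have := c.1.2
    omega

lemma sum_dn (g : ℕ → Fin 3 → ℂ) (hg : ∀ j, g 0 j = 0) (a : In L) :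
    ∑ c : In L, (if up c a then g ((c.1 : ℕ) + 1) c.2 else 0) = g (a.1 : ℕ) a.2 := by
  have ha := a.1.2
  by_cases h : (a.1 : ℕ) = 0
  · rw [h, hg]
    apply Finset.sum_eq_zero
    intro c _
    rw [if_neg]
    rintro ⟨h1, h2⟩
    omega
  · rw [Finset.sum_eq_single ((⟨(a.1 : ℕ) - 1, by omega⟩ : Fin (L - 1)), a.2)]
    · have h2 : (a.1 : ℕ) - 1 + 1 = a.1 := by omega
      simp [up, h2]
    · intro c _ hc
      rw [if_neg]
      rintro ⟨h1, h2⟩
      exact hc (Prod.ext (Fin.ext (by simp; omega)) h1)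
    · simp

/-- the Green function -/
def gg (L : ℕ) (s t : ℕ) : ℝ := (min t s : ℕ) * ((L : ℝ) - (max t s : ℕ)) / L

def GG (L : ℕ) : Matrix (In L) (In L) ℂ := Matrix.of fun a b =>
  if a.2 = b.2 then ((gg L ((b.1 : ℕ) + 1) ((a.1 : ℕ) + 1) : ℝ) : ℂ) else 0

lemma KK_zero (a b : In L) : KK L 0 a b =
    (if a = b then 2 else 0) + (if up a b then -1 else 0) + (if up b a then -1 else 0) := by
  unfold KK
  simp

lemma KK_GG (hL : 2 ≤ L) : (Matrix.of (KK L 0)) * GG L = 1 := by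
  have hL0 : (0 : ℝ) < L := by exact_mod_cast (by omega : 0 < L)
  ext a b
  have hb := b.1.2
  have ha := a.1.2
  rw [Matrix.mul_apply]
  simp only [Matrix.of_apply, KK_zero, add_mul, ite_mul, zero_mul, Finset.sum_add_distrib]
  obtain ⟨g, hg⟩ : ∃ g : ℕ → Fin 3 → ℂ, g = fun t j =>
    if j = b.2 then ((gg L ((b.1 : ℕ) + 1) t : ℝ) : ℂ) else 0 := ⟨_, rfl⟩
  have hG : ∀ c, GG L c b = g ((c.1 : ℕ) + 1) c.2 := by
    intro c
    rw [hg]
    rfl
  have h1 : ∑ c : In L, (if up a c then -1 * GG L c b else 0) = -g ((a.1 : ℕ) + 2) a.2 := by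
    rw [← sum_up g _ a, ← Finset.sum_neg_distrib]
    · refine Finset.sum_congr rfl fun c _ => ?_
      rw [hG]
      split_ifs <;> simp
    · intro j
      rw [hg]
      have h2 : max L ((b.1 : ℕ) + 1) = L := by omega
      simp [gg, h2]
  have h2 : ∑ c : In L, (if up c a then -1 * GG L c b else 0) = -g (a.1 : ℕ) a.2 := by
    rw [← sum_dn g _ a, ← Finset.sum_neg_distrib]
    · refine Finset.sum_congr rfl fun c _ => ?_
      rw [hG]
      split_ifs <;> simp
    · intro j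
      rw [hg]
      simp [gg]
  rw [h1, h2, Finset.sum_ite_eq, if_pos (Finset.mem_univ a), hG, Matrix.one_apply, hg]
  by_cases hj : a.2 = b.2
  · simp only [hj, if_true]
    have key : 2 * gg L ((b.1 : ℕ) + 1) ((a.1 : ℕ) + 1) - gg L ((b.1 : ℕ) + 1) ((a.1 : ℕ) + 2) -
        gg L ((b.1 : ℕ) + 1) (a.1 : ℕ) = if a = b then 1 else 0 := by
      unfold gg
      rcases lt_trichotomy (a.1 : ℕ) b.1 with h | h | h
      · have e1 : min ((a.1 : ℕ) + 1) ((b.1 : ℕ) + 1) = (a.1 : ℕ) + 1 := by omega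
        have e2 : max ((a.1 : ℕ) + 1) ((b.1 : ℕ) + 1) = (b.1 : ℕ) + 1 := by omega
        have e3 : min ((a.1 : ℕ) + 2) ((b.1 : ℕ) + 1) = (a.1 : ℕ) + 2 := by omega
        have e4 : max ((a.1 : ℕ) + 2) ((b.1 : ℕ) + 1) = (b.1 : ℕ) + 1 := by omega
        have e5 : min (a.1 : ℕ) ((b.1 : ℕ) + 1) = (a.1 : ℕ) := by omega
        have e6 : max (a.1 : ℕ) ((b.1 : ℕ) + 1) = (b.1 : ℕ) + 1 := by omega
        rw [e1, e2, e3, e4, e5, e6, if_neg (by rintro rfl; omega)]
        push_cast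
        field_simp
        ring
      · have hab : a = b := Prod.ext (Fin.ext h) hj
        subst hab
        have e1 : min ((a.1 : ℕ) + 1) ((a.1 : ℕ) + 1) = (a.1 : ℕ) + 1 := by omega
        have e2 : max ((a.1 : ℕ) + 1) ((a.1 : ℕ) + 1) = (a.1 : ℕ) + 1 := by omega
        have e3 : min ((a.1 : ℕ) + 2) ((a.1 : ℕ) + 1) = (a.1 : ℕ) + 1 := by omega
        have e4 : max ((a.1 : ℕ) + 2) ((a.1 : ℕ) + 1) = (a.1 : ℕ) + 2 := by omega
        have e5 : min (a.1 : ℕ) ((a.1 : ℕ) + 1) = (a.1 : ℕ) := by omega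
        have e6 : max (a.1 : ℕ) ((a.1 : ℕ) + 1) = (a.1 : ℕ) + 1 := by omega
        rw [e1, e2, e3, e4, e5, e6, if_pos rfl]
        push_cast
        field_simp
        ring
      · have e1 : min ((a.1 : ℕ) + 1) ((b.1 : ℕ) + 1) = (b.1 : ℕ) + 1 := by omega
        have e2 : max ((a.1 : ℕ) + 1) ((b.1 : ℕ) + 1) = (a.1 : ℕ) + 1 := by omega
        have e3 : min ((a.1 : ℕ) + 2) ((b.1 : ℕ) + 1) = (b.1 : ℕ) + 1 := by omega
        have e4 : max ((a.1 : ℕ) + 2) ((b.1 : ℕ) + 1) = (a.1 : ℕ) + 2 := by omega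
        have e5 : min (a.1 : ℕ) ((b.1 : ℕ) + 1) = (b.1 : ℕ) + 1 := by omega
        have e6 : max (a.1 : ℕ) ((b.1 : ℕ) + 1) = (a.1 : ℕ) := by omega
        rw [e1, e2, e3, e4, e5, e6, if_neg (by rintro rfl; omega)]
        push_cast
        field_simp
        ring
    have key' := congrArg (fun x : ℝ => (x : ℂ)) key
    simp only [Complex.ofReal_sub, Complex.ofReal_mul, Complex.ofReal_ofNat] at key'
    have e : (((if a = b then 1 else 0 : ℝ)) : ℂ) = if a = b then 1 else 0 := by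
      split_ifs <;> simp
    rw [e] at key'
    rw [← key']
    ring
  · have hab : a ≠ b := fun h => hj (by rw [h])
    simp [hj, hab]

lemma gg_le (hL : 2 ≤ L) (a b : In L) : ‖GG L a b‖ ≤ L := by
  have hL0 : (0 : ℝ) < L := by exact_mod_cast (by omega : 0 < L)
  unfold GG
  simp only [Matrix.of_apply]
  split_ifs
  · rw [Complex.norm_real, Real.norm_eq_abs]
    unfold gg
    have ha := a.1.2
    have hb := b.1.2
    have h1 : ((min ((a.1 : ℕ) + 1) ((b.1 : ℕ) + 1) : ℕ) : ℝ) ≤ L := by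
      exact_mod_cast (by omega : min ((a.1 : ℕ) + 1) ((b.1 : ℕ) + 1) ≤ L)
    have h2 : ((max ((a.1 : ℕ) + 1) ((b.1 : ℕ) + 1) : ℕ) : ℝ) ≤ L := by
      exact_mod_cast (by omega : max ((a.1 : ℕ) + 1) ((b.1 : ℕ) + 1) ≤ L)
    have h3 : (0 : ℝ) ≤ ((min ((a.1 : ℕ) + 1) ((b.1 : ℕ) + 1) : ℕ) : ℝ) := Nat.cast_nonneg _
    have h4 : (0 : ℝ) ≤ ((max ((a.1 : ℕ) + 1) ((b.1 : ℕ) + 1) : ℕ) : ℝ) := Nat.cast_nonneg _
    rw [abs_of_nonneg (div_nonneg (mul_nonneg h3 (by linarith)) hL0.le), div_le_iff₀ hL0]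
    exact mul_le_mul h1 (by linarith) (by linarith) hL0.le
  · simp

/-! ### Traces -/

lemma tr1 {n : Type} [Fintype n] (A H : Matrix n n ℂ) {α S : ℝ} (hα : 0 ≤ α)
    (hA : ∀ a b, ‖A a b‖ ≤ α) (hH : ∑ a, ∑ b, ‖H a b‖ ≤ S) : ‖trace (A * H)‖ ≤ α * S := by
  unfold trace
  simp only [Matrix.diag_apply, Matrix.mul_apply]
  calc ‖∑ a, ∑ b, A a b * H b a‖ ≤ ∑ a, ∑ b, ‖A a b * H b a‖ :=
        (norm_sum_le _ _).trans (Finset.sum_le_sum fun a _ => norm_sum_le _ _)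
    _ ≤ ∑ a, ∑ b, α * ‖H b a‖ := by
        refine Finset.sum_le_sum fun a _ => Finset.sum_le_sum fun b _ => ?_
        rw [norm_mul]
        exact mul_le_mul_of_nonneg_right (hA a b) (norm_nonneg _)
    _ = α * ∑ b, ∑ a, ‖H b a‖ := by
        rw [Finset.sum_comm]
        simp only [Finset.mul_sum]
    _ ≤ α * S := mul_le_mul_of_nonneg_left hH hα

lemma tr2 {n : Type} [Fintype n] (A H : Matrix n n ℂ) {α S : ℝ} (hα : 0 ≤ α)
    (hA : ∀ a b, ‖A a b‖ ≤ α) (hH : ∑ a, ∑ b, ‖H a b‖ ≤ S) :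
    ‖trace (A * H * (A * H))‖ ≤ (α * S) ^ 2 := by
  have hB : ∀ a b, ‖(A * H) a b‖ ≤ α * ∑ c, ‖H c b‖ := by
    intro a b
    rw [Matrix.mul_apply, Finset.mul_sum]
    refine (norm_sum_le _ _).trans (Finset.sum_le_sum fun c _ => ?_)
    rw [norm_mul]
    exact mul_le_mul_of_nonneg_right (hA a c) (norm_nonneg _)
  have hS : ∑ b, α * ∑ c, ‖H c b‖ ≤ α * S := by
    rw [← Finset.mul_sum, Finset.sum_comm]
    exact mul_le_mul_of_nonneg_left hH hα
  have h0 : 0 ≤ ∑ b, α * ∑ c, ‖H c b‖ := Finset.sum_nonneg fun b _ =>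
    mul_nonneg hα (Finset.sum_nonneg fun c _ => norm_nonneg _)
  unfold trace
  simp only [Matrix.diag_apply]
  calc ‖∑ a, (A * H * (A * H)) a a‖ ≤ ∑ a, ∑ b, ‖(A * H) a b * (A * H) b a‖ := by
        refine (norm_sum_le _ _).trans (Finset.sum_le_sum fun a _ => ?_)
        rw [Matrix.mul_apply (M := A * H) (N := A * H)]
        exact norm_sum_le _ _
    _ ≤ ∑ a, ∑ b, (α * ∑ c, ‖H c b‖) * (α * ∑ c, ‖H c a‖) := by
        refine Finset.sum_le_sum fun a _ => Finset.sum_le_sum fun b _ => ?_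
        rw [norm_mul]
        exact mul_le_mul (hB a b) (hB b a) (norm_nonneg _)
          (mul_nonneg hα (Finset.sum_nonneg fun c _ => norm_nonneg _))
    _ = (∑ b, α * ∑ c, ‖H c b‖) ^ 2 := by
        rw [sq, Finset.sum_mul_sum, Finset.sum_comm]
    _ ≤ (α * S) ^ 2 := pow_le_pow_left₀ h0 hS 2

lemma row_up (a : In L) (y : ℝ) (hy : 0 ≤ y) : ∑ b : In L, (if up a b then y else 0) ≤ y := by
  rw [← Finset.sum_filter, Finset.sum_const, nsmul_eq_mul]
  have h : (Finset.univ.filter (fun b : In L => up a b)).card ≤ 1 := by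
    refine Finset.card_le_one.2 fun b hb c hc => ?_
    obtain ⟨h1, h2⟩ := (Finset.mem_filter.1 hb).2
    obtain ⟨h3, h4⟩ := (Finset.mem_filter.1 hc).2
    exact Prod.ext (Fin.ext (by omega)) (h1.symm.trans h3)
  have h' : ((Finset.univ.filter (fun b : In L => up a b)).card : ℝ) ≤ 1 := by exact_mod_cast h
  nlinarith

lemma row_dn (a : In L) (y : ℝ) (hy : 0 ≤ y) : ∑ b : In L, (if up b a then y else 0) ≤ y := by
  rw [← Finset.sum_filter, Finset.sum_const, nsmul_eq_mul]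
  have h : (Finset.univ.filter (fun b : In L => up b a)).card ≤ 1 := by
    refine Finset.card_le_one.2 fun b hb c hc => ?_
    obtain ⟨h1, h2⟩ := (Finset.mem_filter.1 hb).2
    obtain ⟨h3, h4⟩ := (Finset.mem_filter.1 hc).2
    exact Prod.ext (Fin.ext (by omega)) (h1.trans h3.symm)
  have h' : ((Finset.univ.filter (fun b : In L => up b a)).card : ℝ) ≤ 1 := by exact_mod_cast h
  nlinarith

lemma sum_tri (x y z : In L → ℂ) (c : ℝ) (hc : 0 ≤ c)
    (h : ∀ a, ‖x a‖ + ‖y a‖ + ‖z a‖ ≤ c) : ∑ a : In L, ∑ b : In L,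
      ‖(if a = b then x a else 0) + (if up a b then y a else 0) + (if up b a then z a else 0)‖ ≤
      3 * (L : ℝ) * c := by
  have h1 : ∀ a : In L, ∑ b : In L,
      ‖(if a = b then x a else 0) + (if up a b then y a else 0) + (if up b a then z a else 0)‖ ≤
      c := by
    intro a
    calc ∑ b : In L, ‖(if a = b then x a else 0) + (if up a b then y a else 0) +
          (if up b a then z a else 0)‖ ≤ ∑ b : In L, ((if a = b then ‖x a‖ else 0) +
          (if up a b then ‖y a‖ else 0) + (if up b a then ‖z a‖ else 0)) := by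
          refine Finset.sum_le_sum fun b _ => ?_
          refine norm_add₃_le.trans (le_of_eq ?_)
          congr 1
          · congr 1
            · split_ifs <;> simp
            · split_ifs <;> simp
          · split_ifs <;> simp
      _ = ‖x a‖ + ∑ b : In L, (if up a b then ‖y a‖ else 0) +
          ∑ b : In L, (if up b a then ‖z a‖ else 0) := by
          rw [Finset.sum_add_distrib, Finset.sum_add_distrib, Finset.sum_ite_eq,
            if_pos (Finset.mem_univ a)]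
      _ ≤ ‖x a‖ + ‖y a‖ + ‖z a‖ := by
          have h2 := row_up a _ (norm_nonneg (y a))
          have h3 := row_dn a _ (norm_nonneg (z a))
          linarith
      _ ≤ c := h a
  calc _ ≤ ∑ a : In L, c := Finset.sum_le_sum fun a _ => h1 a
    _ = ((Fintype.card (In L) : ℕ) : ℝ) * c := by
        rw [Finset.sum_const, nsmul_eq_mul, Finset.card_univ]
    _ ≤ 3 * (L : ℝ) * c := by
        refine mul_le_mul_of_nonneg_right ?_ hc
        rw [Fintype.card_prod, Fintype.card_fin, Fintype.card_fin]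
        have : ((L - 1) * 3 : ℕ) ≤ 3 * L := by omega
        exact_mod_cast this

lemma ph_nonneg (L : ℕ) (j : Fin 3) : 0 ≤ ph L j := by
  unfold ph
  split_ifs <;> positivity

lemma ph_le (L : ℕ) (hL : 2 ≤ L) (j : Fin 3) : ph L j ≤ 1 / (2 * (L : ℝ) ^ 2) := by
  have hL0 : (0 : ℝ) < L := by exact_mod_cast (by omega : 0 < L)
  unfold ph
  split_ifs
  · exact le_rfl
  · positivity

lemma ps_nonneg (a : In L) : 0 ≤ ps L a := by
  unfold ps
  split_ifs <;> positivity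

lemma ps_le (hL : 2 ≤ L) (a : In L) : ps L a ≤ 1 / (L : ℝ) := by
  have hL0 : (0 : ℝ) < L := by exact_mod_cast (by omega : 0 < L)
  unfold ps
  split_ifs
  · positivity
  · have ha := a.1.2
    have h1 : ((a.1 : ℕ) : ℝ) + 1 ≤ L := by exact_mod_cast (by omega : (a.1 : ℕ) + 1 ≤ L)
    rw [div_le_div_iff₀ (by positivity) hL0]
    nlinarith

lemma K1_sum (hL : 2 ≤ L) : ∑ a : In L, ∑ b : In L, ‖K1 L 0 a b‖ ≤ 3 / (L : ℝ) := by
  have hL0 : (0 : ℝ) < L := by exact_mod_cast (by omega : 0 < L)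
  have h := sum_tri (L := L) (fun a => ((2 * (-Real.sin (ph L a.2 * 0) * ph L a.2) -
      2 * (-Real.sin (ps L a * 0) * ps L a) : ℝ) : ℂ))
    (fun a => -(Complex.exp (-Complex.I * ((ph L a.2 * 0 : ℝ) : ℂ)) *
      (-Complex.I * (ph L a.2 : ℂ))))
    (fun a => -(Complex.exp (Complex.I * ((ph L a.2 * 0 : ℝ) : ℂ)) *
      (Complex.I * (ph L a.2 : ℂ)))) (1 / (L : ℝ) ^ 2) (by positivity) (by
      intro a
      have h1 := ph_nonneg L a.2
      have h2 := ph_le L hL a.2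
      simp only [mul_zero, Complex.ofReal_zero, Complex.exp_zero, one_mul, Real.sin_zero, neg_zero,
        zero_mul, sub_zero, norm_zero, norm_neg, norm_mul, Complex.norm_I, Complex.norm_real,
        Real.norm_eq_abs, abs_of_nonneg h1, zero_add]
      have h3 : 1 / (L : ℝ) ^ 2 = 1 / (2 * (L : ℝ) ^ 2) + 1 / (2 * (L : ℝ) ^ 2) := by
        field_simp
        norm_num
      rw [h3]
      linarith)
  refine (le_of_eq ?_).trans (h.trans (le_of_eq ?_))
  · rfl
  · field_simp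

lemma K2_sum (hL : 2 ≤ L) : ∑ a : In L, ∑ b : In L, ‖K2 L a b‖ ≤ 9 / (L : ℝ) := by
  have hL0 : (0 : ℝ) < L := by exact_mod_cast (by omega : 0 < L)
  have hL1 : (1 : ℝ) ≤ L := by exact_mod_cast (by omega : 1 ≤ L)
  have h := sum_tri (L := L)
    (fun a => ((2 * (-ph L a.2 * ph L a.2) - 2 * (-ps L a * ps L a) : ℝ) : ℂ))
    (fun a => ((ph L a.2 ^ 2 : ℝ) : ℂ)) (fun a => ((ph L a.2 ^ 2 : ℝ) : ℂ))
    (3 / (L : ℝ) ^ 2) (by positivity) (by
      intro a
      have h1 := ph_nonneg L a.2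
      have h2 := ph_le L hL a.2
      have h3 := ps_nonneg a
      have h4 := ps_le hL a
      have h5 : ph L a.2 ≤ 1 / (2 * (L : ℝ)) := by
        refine h2.trans ?_
        rw [div_le_div_iff₀ (by positivity) (by positivity)]
        nlinarith
      have h6 : ph L a.2 ^ 2 ≤ (1 / (2 * (L : ℝ))) ^ 2 := pow_le_pow_left₀ h1 h5 2
      have h7 : ps L a ^ 2 ≤ (1 / (L : ℝ)) ^ 2 := pow_le_pow_left₀ h3 h4 2
      have h8 : (1 / (2 * (L : ℝ))) ^ 2 = (1 / (L : ℝ)) ^ 2 / 4 := by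
        field_simp
        norm_num
      have h9 : 3 / (L : ℝ) ^ 2 = 3 * (1 / (L : ℝ)) ^ 2 := by
        field_simp
      rw [h8] at h6
      rw [h9]
      simp only [Complex.norm_real, Real.norm_eq_abs, abs_of_nonneg (sq_nonneg (ph L a.2))]
      have h10 : |2 * (-ph L a.2 * ph L a.2) - 2 * (-ps L a * ps L a)| ≤
          2 * ph L a.2 ^ 2 + 2 * ps L a ^ 2 := by
        rw [abs_le]
        constructor <;> nlinarith [sq_nonneg (ph L a.2), sq_nonneg (ps L a)]
      linarith)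
  refine (le_of_eq ?_).trans (h.trans (le_of_eq ?_))
  · rfl
  · field_simp
    norm_num

end entries

/-- The modes of momentum zero. -/
theorem af_k0 : S_LD2 → S_K0 := by
  rintro ⟨-, -, h3⟩
  refine ⟨18, ?_⟩
  intro L _ hL
  have hL0 : (0 : ℝ) < L := by exact_mod_cast (by omega : 0 < L)
  have hM : ∀ ε : ℝ, (Matrix.of (hS (L := L) ε 1)).submatrix
      (Sum.inr : Fin (L - 1) × Fin 3 → AL L) (Sum.inr : Fin (L - 1) × Fin 3 → AL L) =
      Matrix.of (KK L ε) := by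
    intro ε
    ext a b
    simp only [Matrix.submatrix_apply, Matrix.of_apply]
    exact hS_eq ε a b
  simp only [hM]
  have hinv : (Matrix.of (KK L 0)) * GG L = 1 := KK_GG hL
  have hdet : det (Matrix.of (KK L 0)) ≠ 0 := by
    intro h0
    have := congrArg det hinv
    rw [Matrix.det_mul, h0, zero_mul, Matrix.det_one] at this
    exact zero_ne_one this
  refine ⟨det_cd _ (fun a b => KK_cd a b), hdet, ?_⟩
  rw [h3 (fun x => Matrix.of (KK L x)) (fun x => Matrix.of (K1 L x)) (Matrix.of (K2 L))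
    (fun x a b => KK_deriv x a b) (fun a b => K1_deriv a b) hdet,
    Matrix.inv_eq_right_inv hinv]
  have t1 := tr1 (GG L) (Matrix.of (K2 L)) hL0.le (gg_le hL) (K2_sum hL)
  have t2 := tr2 (GG L) (Matrix.of (K1 L 0)) hL0.le (gg_le hL) (K1_sum hL)
  have e1 : (L : ℝ) * (9 / L) = 9 := by field_simp
  have e2 : ((L : ℝ) * (3 / L)) ^ 2 = 9 := by
    have : (L : ℝ) * (3 / L) = 3 := by field_simp
    rw [this]
    norm_num
  rw [e1] at t1
  rw [e2] at t2
  exact (norm_sub_le _ _).trans (by linarith)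

end

end Pool.Agent.Y232.AF
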